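import Pool.Agent.J4H79.GC.Res1

/-!
# Project GC (helper27), job RES (helper79): the resultant with respect to the variable `0`
-/

set_option autoImplicit false
set_option linter.all false

open MvPolynomial Height Height.AdmissibleAbsValues

namespace Pool.Agent.J4H79.GC

open Pool.Agent.J4H27.GC

variable {K : Type} [Field K] {n : ℕ}

/-- the resultant with respect to the variable `0` -/
noncomputable def rs (P Q : MvPolynomial (Fin (n + 1)) K) : MvPolynomial (Fin n) K :=
  Polynomial.resultant (finSuccEquiv K n P) (finSuccEquiv K n Q)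

/-- entries of the Sylvester matrix -/
lemma syl_entry {A : Type} [CommRing A] (F G : Polynomial A) (m k : ℕ) (p : A → Prop) (h0 : p 0)
    (i : Fin (m + k)) (j : Fin m) (h : ∀ l : ℕ, l ≤ i → p (G.coeff l)) :
    p (Polynomial.sylvester F G m k i (Fin.castAdd k j)) := by
  rw [Polynomial.sylvester, Matrix.of_apply, Fin.addCases_left]
  split_ifs with h1
  · exact h _ (Nat.sub_le _ _)
  · exact h0

lemma syl_entry' {A : Type} [CommRing A] (F G : Polynomial A) (m k : ℕ) (p : A → Prop) (h0 : p 0)
    (i : Fin (m + k)) (j : Fin k) (h : ∀ l : ℕ, l ≤ i → p (F.coeff l)) :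
    p (Polynomial.sylvester F G m k i (Fin.natAdd m j)) := by
  rw [Polynomial.sylvester, Matrix.of_apply, Fin.addCases_right]
  split_ifs with h1
  · exact h _ (Nat.sub_le _ _)
  · exact h0

/-! ### the resultant is not zero -/

lemma rs_ne {P Q : MvPolynomial (Fin (n + 1)) K} (hP : Irreducible P) (hd : 0 < P.degreeOf 0)
    (hPQ : ¬ P ∣ Q) : rs P Q ≠ 0 := by
  classical
  set A := MvPolynomial (Fin n) K with hA
  set F := finSuccEquiv K n P with hF
  set G := finSuccEquiv K n Q with hG
  have hFi : Irreducible F := by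
    rw [hF]
    exact (MulEquiv.irreducible_iff (finSuccEquiv K n).toRingEquiv.toMulEquiv).mpr hP
  have hFd : F.natDegree ≠ 0 := by
    rw [hF, natDegree_finSuccEquiv]; exact hd.ne'
  have hFG : ¬ F ∣ G := by
    intro h
    apply hPQ
    have := map_dvd (finSuccEquiv K n).symm h
    simpa [hF, hG] using this
  have hpr : F.IsPrimitive := hFi.isPrimitive hFd
  intro h0
  have h1 : Polynomial.resultant (F.map (algebraMap A (FractionRing A)))
      (G.map (algebraMap A (FractionRing A))) = 0 := by
    have h2 := Polynomial.resultant_map_map F G F.natDegree G.natDegree (algebraMap A (FractionRing A))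
    have hinj := IsFractionRing.injective A (FractionRing A)
    rw [Polynomial.natDegree_map_eq_of_injective hinj, Polynomial.natDegree_map_eq_of_injective hinj,
      h2]
    have h3 : Polynomial.resultant F G = 0 := h0
    rw [h3, map_zero]
  rw [Polynomial.resultant_eq_zero_iff] at h1
  apply h1.2
  have hirr : Irreducible (F.map (algebraMap A (FractionRing A))) :=
    (hpr.irreducible_iff_irreducible_map_fraction_map).mp hFi
  rw [hirr.coprime_iff_not_dvd]
  intro hdvd
  exact hFG (hpr.dvd_of_fraction_map_dvd_fraction_map hdvd)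

/-! ### degrees -/

lemma deg_rs {P Q : MvPolynomial (Fin (n + 1)) K} (hPQ : ∀ i, Q.degreeOf i ≤ P.degreeOf i)
    (i : Fin n) : (rs P Q).degreeOf i ≤ 2 * P.degreeOf 0 * P.degreeOf i.succ := by
  unfold rs Polynomial.resultant
  have h1 := deg_det (Polynomial.sylvester (finSuccEquiv K n P) (finSuccEquiv K n Q)
    (finSuccEquiv K n P).natDegree (finSuccEquiv K n Q).natDegree) i (P.degreeOf i.succ) (by
      intro a b
      refine Fin.addCases (fun j => ?_) (fun j => ?_) b
      · apply syl_entry (p := fun f : MvPolynomial (Fin n) K => f.degreeOf i ≤ P.degreeOf i.succ)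
        · simp
        · intro l _
          exact (degreeOf_coeff_finSuccEquiv Q i l).trans (hPQ _)
      · apply syl_entry' (p := fun f : MvPolynomial (Fin n) K => f.degreeOf i ≤ P.degreeOf i.succ)
        · simp
        · intro l _
          exact degreeOf_coeff_finSuccEquiv P i l)
  refine h1.trans (Nat.mul_le_mul_right _ ?_)
  rw [natDegree_finSuccEquiv, natDegree_finSuccEquiv]
  have := hPQ 0
  omega

/-! ### weighted order -/

lemma tr_tr {σ : Type} (a : σ → K) (P : MvPolynomial σ K) :
    tr (fun i => - a i) (tr a P) = P := by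
  unfold tr
  have h : (aeval (fun i => X i + C (- a i)) : MvPolynomial σ K →ₐ[K] MvPolynomial σ K).comp
      (aeval (fun i => X i + C (a i))) = AlgHom.id K _ := by
    apply algHom_ext
    intro i
    simp [algebraMap_eq]
  exact DFunLike.congr_fun h P

lemma tr_inj {σ : Type} (a : σ → K) :
    Function.Injective (aeval (fun i => X i + C (a i)) : MvPolynomial σ K →ₐ[K] MvPolynomial σ K) := by
  intro P Q h
  rw [← tr_tr a P, ← tr_tr a Q]
  exact congrArg _ h

lemma fin_tr (a : Fin (n + 1) → K) (P : MvPolynomial (Fin (n + 1)) K) :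
    finSuccEquiv K n (tr a P) = Polynomial.taylor (C (a 0)) ((finSuccEquiv K n P).map
      (aeval (fun i : Fin n => X i + C (a i.succ)) :
        MvPolynomial (Fin n) K →ₐ[K] MvPolynomial (Fin n) K).toRingHom) := by
  unfold tr
  have h : ((finSuccEquiv K n).toRingEquiv.toRingHom).comp
      ((aeval (fun i => X i + C (a i)) : MvPolynomial (Fin (n + 1)) K →ₐ[K] _).toRingHom) =
    ((Polynomial.taylorAlgHom (C (a 0) : MvPolynomial (Fin n) K)).toRingHom).comp
      ((Polynomial.mapRingHom (aeval (fun i : Fin n => X i + C (a i.succ)) :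
        MvPolynomial (Fin n) K →ₐ[K] MvPolynomial (Fin n) K).toRingHom).comp
        ((finSuccEquiv K n).toRingEquiv.toRingHom)) := by
    have hC : ∀ r : K, finSuccEquiv K n (C r) = Polynomial.C (C r) := by
      intro r
      simp [finSuccEquiv_apply]
    apply ringHom_ext
    · intro r
      simp [hC]
    · intro i
      refine Fin.cases ?_ (fun j => ?_) i
      · simp [hC, finSuccEquiv_X_zero]
      · simp [hC, finSuccEquiv_X_succ]
  exact DFunLike.congr_fun h P

lemma map_inj (a : Fin n → K) : Function.Injective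
    ((aeval (fun i : Fin n => X i + C (a i)) :
      MvPolynomial (Fin n) K →ₐ[K] MvPolynomial (Fin n) K).toRingHom) := tr_inj a

lemma natDegree_fin_tr (a : Fin (n + 1) → K) (P : MvPolynomial (Fin (n + 1)) K) :
    (finSuccEquiv K n (tr a P)).natDegree = P.degreeOf 0 := by
  rw [fin_tr, Polynomial.natDegree_taylor,
    Polynomial.natDegree_map_eq_of_injective (map_inj (fun i => a i.succ)), natDegree_finSuccEquiv]

lemma tr_rs (a : Fin (n + 1) → K) (P Q : MvPolynomial (Fin (n + 1)) K) :
    tr (fun i : Fin n => a i.succ) (rs P Q) = rs (tr a P) (tr a Q) := by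
  unfold rs
  rw [fin_tr, fin_tr, Polynomial.resultant_taylor,
    Polynomial.natDegree_map_eq_of_injective (map_inj (fun i => a i.succ)),
    Polynomial.natDegree_map_eq_of_injective (map_inj (fun i => a i.succ)),
    Polynomial.resultant_map_map]
  rfl

lemma coeff_og {w : Fin (n + 1) → ℕ} {t : ℕ} {P : MvPolynomial (Fin (n + 1)) K}
    (h : ∀ s ∈ P.support, t ≤ ∑ i, w i * s i) (l : ℕ) :
    Og (fun i : Fin n => w i.succ) (t - l * w 0) ((finSuccEquiv K n P).coeff l) := by
  intro s hs
  rw [mem_support_coeff_finSuccEquiv] at hs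
  have h1 := h _ hs
  rw [Fin.sum_univ_succ] at h1
  simp only [Finsupp.cons_zero, Finsupp.cons_succ] at h1
  rw [Nat.sub_le_iff_le_add, add_comm, mul_comm]
  exact h1

lemma ord_rs {P Q : MvPolynomial (Fin (n + 1)) K} (w : Fin (n + 1) → ℕ) (a : Fin (n + 1) → K)
    (t : ℕ) (hP : Ow w a P t) (hQ : Ow w a Q t) :
    Ow (fun i : Fin n => w i.succ) (fun i : Fin n => a i.succ) (rs P Q)
      (∑ c ∈ Finset.range (P.degreeOf 0), (t - c * w 0)) := by
  unfold Ow
  rw [tr_rs]
  unfold rs Polynomial.resultant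
  set m := (finSuccEquiv K n (tr a P)).natDegree with hm
  set k := (finSuccEquiv K n (tr a Q)).natDegree with hk
  have h1 : Og (fun i : Fin n => w i.succ) (∑ i : Fin (m + k), (t - i * w 0))
      (Polynomial.sylvester (finSuccEquiv K n (tr a P)) (finSuccEquiv K n (tr a Q)) m k).det := by
    apply Og.det
    intro i j
    refine Fin.addCases (fun j => ?_) (fun j => ?_) j
    · apply syl_entry (p := fun f : MvPolynomial (Fin n) K =>
        Og (fun i : Fin n => w i.succ) (t - i * w 0) f)
      · intro s hs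
        simp at hs
      · intro l hl s hs
        refine le_trans ?_ (coeff_og hQ l s hs)
        exact Nat.sub_le_sub_left (Nat.mul_le_mul_right _ hl) _
    · apply syl_entry' (p := fun f : MvPolynomial (Fin n) K =>
        Og (fun i : Fin n => w i.succ) (t - i * w 0) f)
      · intro s hs
        simp at hs
      · intro l hl s hs
        refine le_trans ?_ (coeff_og hP l s hs)
        exact Nat.sub_le_sub_left (Nat.mul_le_mul_right _ hl) _
  intro s hs
  refine le_trans ?_ (h1 s hs)
  rw [Fin.sum_univ_eq_sum_range (fun i => t - i * w 0) (m + k)]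
  apply Finset.sum_le_sum_of_subset
  rw [Finset.range_subset_range, ← natDegree_fin_tr a P]
  omega

/-! ### heights -/

section local_bounds

variable (v : AbsoluteValue K ℝ)

lemma l1_coeff (P : MvPolynomial (Fin (n + 1)) K) (l : ℕ) :
    l1 v ((finSuccEquiv K n P).coeff l) ≤ l1 v P := by
  classical
  unfold l1
  have hinj : Set.InjOn (fun m : Fin n →₀ ℕ => Finsupp.cons l m)
      (((finSuccEquiv K n P).coeff l).support : Set (Fin n →₀ ℕ)) := by
    intro a _ b _ hab
    exact Finsupp.cons_right_injective l hab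
  have h1 : ∑ m ∈ ((finSuccEquiv K n P).coeff l).support,
      v (((finSuccEquiv K n P).coeff l).coeff m) =
      ∑ s ∈ (((finSuccEquiv K n P).coeff l).support).image (fun m => Finsupp.cons l m),
        v (P.coeff s) := by
    rw [Finset.sum_image hinj]
    apply Finset.sum_congr rfl
    intro m _
    rw [finSuccEquiv_coeff_coeff]
  rw [h1]
  apply Finset.sum_le_sum_of_subset_of_nonneg
  · intro s hs
    rw [Finset.mem_image] at hs
    obtain ⟨m, hm, rfl⟩ := hs
    exact mem_support_coeff_finSuccEquiv.mp hm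
  · intro _ _ _
    exact v.nonneg _

lemma mx_coeff (P : MvPolynomial (Fin (n + 1)) K) (l : ℕ) :
    mx v ((finSuccEquiv K n P).coeff l) ≤ mx v P := by
  refine mx_le (mx_nonneg _ _) fun s => ?_
  rw [finSuccEquiv_coeff_coeff]
  exact le_mx _ _ _

lemma l1_le (P : MvPolynomial (Fin n) K) : l1 v P ≤ 2 ^ (∑ i, P.degreeOf i) * mx v P := by
  unfold l1
  refine (Finset.sum_le_sum fun s _ => le_mx v P s).trans ?_
  rw [Finset.sum_const, nsmul_eq_mul]
  refine mul_le_mul_of_nonneg_right ?_ (mx_nonneg _ _)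
  exact_mod_cast card_supp_le P

/-- the constant in the archimedean estimate -/
noncomputable def cst (d D : ℕ) : ℝ := (2 * d : ℝ) ^ (2 * d) * 4 ^ (D * d)

lemma arch_rs {P Q : MvPolynomial (Fin (n + 1)) K} (hd : 0 < P.degreeOf 0)
    (hPQ : ∀ i, Q.degreeOf i ≤ P.degreeOf i) :
    mx v (rs P Q) ≤ cst (P.degreeOf 0) (∑ i, P.degreeOf i) *
      (mx v Q ^ P.degreeOf 0 * mx v P ^ Q.degreeOf 0) := by
  obtain ⟨D, hD⟩ : ∃ D : ℕ, D = ∑ i, P.degreeOf i := ⟨_, rfl⟩
  have hDQ : ∑ i, Q.degreeOf i ≤ D := by rw [hD]; exact Finset.sum_le_sum fun i _ => hPQ i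
  rw [← hD]
  refine (mx_le_l1 _).trans ?_
  unfold rs Polynomial.resultant
  set m := (finSuccEquiv K n P).natDegree with hm
  set k := (finSuccEquiv K n Q).natDegree with hk
  have hmP : m = P.degreeOf 0 := natDegree_finSuccEquiv P
  have hkQ : k = Q.degreeOf 0 := natDegree_finSuccEquiv Q
  rw [← hmP, ← hkQ]
  rw [← hmP] at hd
  have hkm : k ≤ m := by rw [hmP, hkQ]; exact hPQ 0
  have h1 := l1_det (v := v)
    (Polynomial.sylvester (finSuccEquiv K n P) (finSuccEquiv K n Q) m k)
    (fun j => Fin.addCases (motive := fun _ => ℝ) (fun _ => l1 v Q) (fun _ => l1 v P) j) (by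
      intro i j
      refine Fin.addCases (fun j => ?_) (fun j => ?_) j
      · rw [Fin.addCases_left]
        apply syl_entry (p := fun f : MvPolynomial (Fin n) K => l1 v f ≤ l1 v Q)
        · rw [l1_zero]; exact l1_nonneg _
        · intro l _
          exact l1_coeff v Q l
      · rw [Fin.addCases_right]
        apply syl_entry' (p := fun f : MvPolynomial (Fin n) K => l1 v f ≤ l1 v P)
        · rw [l1_zero]; exact l1_nonneg _
        · intro l _
          exact l1_coeff v P l)
  rw [Fin.prod_univ_add] at h1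
  simp only [Fin.addCases_left, Fin.addCases_right, Finset.prod_const, Finset.card_univ,
    Fintype.card_fin] at h1
  refine h1.trans ?_
  have h2 : (((m + k : ℕ) : ℝ)) ^ (m + k) ≤ (2 * m : ℝ) ^ (2 * m) := by
    have h3 : ((m + k : ℕ) : ℝ) ≤ 2 * m := by
      have : (m + k : ℕ) ≤ 2 * m := by omega
      exact_mod_cast this
    have h4 : (1 : ℝ) ≤ 2 * m := by
      have : 1 ≤ 2 * m := by omega
      exact_mod_cast this
    exact (pow_le_pow_left₀ (by positivity) h3 _).trans (pow_le_pow_right₀ h4 (by omega))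
  have h5 : l1 v Q ^ m ≤ 2 ^ (D * m) * mx v Q ^ m := by
    rw [pow_mul, ← mul_pow]
    apply pow_le_pow_left₀ (l1_nonneg _)
    refine (l1_le v Q).trans (mul_le_mul_of_nonneg_right ?_ (mx_nonneg _ _))
    exact pow_le_pow_right₀ (by norm_num) hDQ
  have h6 : l1 v P ^ k ≤ 2 ^ (D * m) * mx v P ^ k := by
    have h7 : l1 v P ^ k ≤ 2 ^ (D * k) * mx v P ^ k := by
      rw [pow_mul, ← mul_pow]
      apply pow_le_pow_left₀ (l1_nonneg _)
      rw [hD]
      exact l1_le v P
    refine h7.trans (mul_le_mul_of_nonneg_right ?_ (pow_nonneg (mx_nonneg _ _) _))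
    exact pow_le_pow_right₀ (by norm_num) (Nat.mul_le_mul_left _ hkm)
  have e1 : cst m D * (mx v Q ^ m * mx v P ^ k) =
      (2 * m : ℝ) ^ (2 * m) * ((2 ^ (D * m) * mx v Q ^ m) * (2 ^ (D * m) * mx v P ^ k)) := by
    unfold cst
    have : (4 : ℝ) ^ (D * m) = 2 ^ (D * m) * 2 ^ (D * m) := by
      rw [← mul_pow]; norm_num
    rw [this]
    ring
  rw [e1]
  refine mul_le_mul h2 (mul_le_mul h5 h6 (pow_nonneg (l1_nonneg _) _) ?_) ?_ (by positivity)
  · exact mul_nonneg (by positivity) (pow_nonneg (mx_nonneg _ _) _)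
  · exact mul_nonneg (pow_nonneg (l1_nonneg _) _) (pow_nonneg (l1_nonneg _) _)

lemma nonarch_rs (hv : IsNonarchimedean v) (P Q : MvPolynomial (Fin (n + 1)) K) :
    mx v (rs P Q) ≤ mx v Q ^ P.degreeOf 0 * mx v P ^ Q.degreeOf 0 := by
  obtain ⟨w, hw1, hw2⟩ := exists_abs v hv n
  unfold rs Polynomial.resultant
  rw [← natDegree_finSuccEquiv P, ← natDegree_finSuccEquiv Q]
  set m := (finSuccEquiv K n P).natDegree with hm
  set k := (finSuccEquiv K n Q).natDegree with hk
  have h1 := na_det w hw1
    (Polynomial.sylvester (finSuccEquiv K n P) (finSuccEquiv K n Q) m k)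
    (fun j => Fin.addCases (motive := fun _ => ℝ) (fun _ => mx v Q) (fun _ => mx v P) j) (by
      intro i j
      refine Fin.addCases (fun j => ?_) (fun j => ?_) j
      · rw [Fin.addCases_left]
        apply syl_entry (p := fun f : MvPolynomial (Fin n) K => w f ≤ mx v Q)
        · rw [map_zero]; exact mx_nonneg _ _
        · intro l _
          rw [hw2]
          exact mx_coeff v Q l
      · rw [Fin.addCases_right]
        apply syl_entry' (p := fun f : MvPolynomial (Fin n) K => w f ≤ mx v P)
        · rw [map_zero]; exact mx_nonneg _ _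
        · intro l _
          rw [hw2]
          exact mx_coeff v P l)
  rw [Fin.prod_univ_add] at h1
  simp only [Fin.addCases_left, Fin.addCases_right, Finset.prod_const, Finset.card_univ,
    Fintype.card_fin] at h1
  rw [← hw2]
  exact h1

end local_bounds

section number_field

variable [NumberField K]

lemma hA_rs {P Q : MvPolynomial (Fin (n + 1)) K} (hd : 0 < P.degreeOf 0)
    (hPQ : ∀ i, Q.degreeOf i ≤ P.degreeOf i) :
    hA (rs P Q) ≤ cst (P.degreeOf 0) (∑ i, P.degreeOf i) ^ (archAbsVal (K := K)).card *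
      (hA Q ^ P.degreeOf 0 * hA P ^ Q.degreeOf 0) := by
  unfold hA
  have h1 : ((archAbsVal (K := K)).map (fun v => mx v (rs P Q))).prod ≤
      ((archAbsVal (K := K)).map (fun v => cst (P.degreeOf 0) (∑ i, P.degreeOf i) *
        (mx v Q ^ P.degreeOf 0 * mx v P ^ Q.degreeOf 0))).prod := by
    apply multiset_prod_le
    intro v _
    exact ⟨mx_nonneg _ _, arch_rs v hd hPQ⟩
  rw [Multiset.prod_map_mul, Multiset.map_const', Multiset.prod_replicate,
    Multiset.prod_map_mul, Multiset.prod_map_pow, Multiset.prod_map_pow] at h1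
  exact h1

lemma hN_rs {P Q : MvPolynomial (Fin (n + 1)) K} (hP : P ≠ 0) (hQ : Q ≠ 0) (hR : rs P Q ≠ 0) :
    hN (rs P Q) ≤ hN Q ^ P.degreeOf 0 * hN P ^ Q.degreeOf 0 := by
  have s1 : (fun v : nonarchAbsVal (K := K) => mx v.val Q ^ P.degreeOf 0).HasFiniteMulSupport :=
    (fin_supp hQ).pow _
  have s2 : (fun v : nonarchAbsVal (K := K) => mx v.val P ^ Q.degreeOf 0).HasFiniteMulSupport :=
    (fin_supp hP).pow _
  unfold hN
  rw [finprod_pow (fin_supp hQ), finprod_pow (fin_supp hP), ← finprod_mul_distrib s1 s2]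
  apply finprod_le_finprod (fin_supp hR) (fun v => mx_nonneg _ _) (s1.mul s2)
  intro v
  exact nonarch_rs v.val (isNonarchimedean v.val v.2) P Q

end number_field

theorem t_RES : S_RES := by
  intro K _ _ n
  refine ⟨6 * (archAbsVal (K := K)).card, by positivity, ?_⟩
  intro P Q hP hd hQ hPQ hdeg
  have hP0 : P ≠ 0 := hP.ne_zero
  have hR := rs_ne hP hd hPQ
  refine ⟨rs P Q, hR, deg_rs hdeg, ?_, fun w a t => ord_rs w a t⟩
  obtain ⟨Na, hNa⟩ : ∃ Na : ℕ, Na = (archAbsVal (K := K)).card := ⟨_, rfl⟩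
  obtain ⟨D, hD⟩ : ∃ D : ℕ, D = ∑ i, P.degreeOf i := ⟨_, rfl⟩
  obtain ⟨d, hdd⟩ : ∃ d : ℕ, d = P.degreeOf 0 := ⟨_, rfl⟩
  have hdD : d ≤ D := by
    rw [hD, hdd]
    exact Finset.single_le_sum (f := fun i => P.degreeOf i) (fun _ _ => Nat.zero_le _)
      (Finset.mem_univ 0)
  have h1 := hA_rs hd hdeg
  have h2 := hN_rs hP0 hQ hR
  rw [← hNa, ← hD, ← hdd] at h1
  rw [← hdd] at h2 hd
  have hpP : 0 ≤ hp P := logHeight_nonneg _
  have hpQ : 0 ≤ hp Q := logHeight_nonneg _
  have a1 := hA_pos hP0
  have a2 := hN_pos hP0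
  have a3 := hA_pos hQ
  have a4 := hN_pos hQ
  have a5 := hA_pos hR
  have a6 := hN_pos hR
  have hc : 0 < cst d D := by
    unfold cst
    have : (0 : ℝ) < d := by exact_mod_cast hd
    positivity
  have h3 : hA (rs P Q) * hN (rs P Q) ≤
      cst d D ^ Na * ((hA Q * hN Q) ^ d * (hA P * hN P) ^ Q.degreeOf 0) := by
    calc hA (rs P Q) * hN (rs P Q) ≤
        (cst d D ^ Na * (hA Q ^ d * hA P ^ Q.degreeOf 0)) *
          (hN Q ^ d * hN P ^ Q.degreeOf 0) := mul_le_mul h1 h2 a6.le (by positivity)
      _ = _ := by rw [mul_pow, mul_pow]; ring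
  have h4 : hp (rs P Q) ≤ Na * Real.log (cst d D) + (d * hp Q + Q.degreeOf 0 * hp P) := by
    rw [hp_eq hR, hp_eq hP0, hp_eq hQ]
    refine (Real.log_le_log (by positivity) h3).trans (le_of_eq ?_)
    rw [Real.log_mul (by positivity) (by positivity), Real.log_mul (by positivity) (by positivity),
      Real.log_pow, Real.log_pow, Real.log_pow]
  have hd' : (1 : ℝ) ≤ d := by exact_mod_cast hd
  have hdD' : (d : ℝ) ≤ D := by exact_mod_cast hdD
  have h5 : Real.log (cst d D) ≤ 6 * (d * D) := by
    unfold cst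
    rw [Real.log_mul (by positivity) (by positivity), Real.log_pow, Real.log_pow]
    have h6 : Real.log (2 * d) ≤ 2 * d := by
      have := Real.log_le_sub_one_of_pos (show (0 : ℝ) < 2 * d by positivity)
      linarith
    have h7 : Real.log 4 ≤ 2 := by
      have h8 : Real.log 4 = 2 * Real.log 2 := by
        rw [show (4 : ℝ) = 2 ^ 2 by norm_num, Real.log_pow]
        norm_num
      have := Real.log_two_lt_d9
      rw [h8]
      linarith
    push_cast
    have h9 : (2 * (d : ℝ)) * Real.log (2 * d) ≤ (2 * d) * (2 * d) :=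
      mul_le_mul_of_nonneg_left h6 (by positivity)
    have h10 : (D : ℝ) * d * Real.log 4 ≤ D * d * 2 :=
      mul_le_mul_of_nonneg_left h7 (by positivity)
    nlinarith
  have h11 : (Q.degreeOf 0 : ℝ) * hp P ≤ d * hp P := by
    apply mul_le_mul_of_nonneg_right _ hpP
    rw [hdd]
    exact_mod_cast hdeg 0
  have h12 : (Na : ℝ) * Real.log (cst d D) ≤ Na * (6 * (d * D)) :=
    mul_le_mul_of_nonneg_left h5 (by positivity)
  rw [← hdd, ← hNa]
  have h13 : (∑ i, (P.degreeOf i : ℝ)) = D := by rw [hD]; push_cast; rfl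
  rw [h13]
  nlinarith

end Pool.Agent.J4H79.GC
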