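import Mathlib
import Pool.Agent.J4H47.GC.Def

/-!
# Complete decompositions into primitive idempotents
-/

set_option autoImplicit false

open Finset Polynomial

universe v

namespace Pool.Agent.J4H79.GC

variable {K : Type v} [Field K] {V : Type v} [AddCommGroup V] [Module K V]

/-- Fitting: the idempotent of an element which is neither nilpotent nor injective on the corner. -/
lemma fitting [Module.Finite K V] (A : Subalgebra K (Module.End K V)) (e z : Module.End K V)
    (he : e * e = e) (hzA : z ∈ A) (hez : e * z = z) (hze : z * e = z)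
    (w : V) (hw : w ≠ 0) (hew : e w = w) (hzw : z w = 0) (hnil : ¬ IsNilpotent z) :
    ∃ g ∈ A, g * g = g ∧ e * g = g ∧ g * e = g ∧ g ≠ 0 ∧ g ≠ e := by
  have hint : IsIntegral K z := Algebra.IsIntegral.isIntegral z
  have hp0 : minpoly K z ≠ 0 := minpoly.ne_zero hint
  set P : K[X] := X * minpoly K z with hP
  have hP0 : P ≠ 0 := mul_ne_zero X_ne_zero hp0
  obtain ⟨q, hq, hndvd⟩ := Polynomial.exists_eq_pow_rootMultiplicity_mul_and_not_dvd P hP0 0
  set a := P.rootMultiplicity 0 with ha
  have haP : 0 < a := by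
    rw [ha, Polynomial.rootMultiplicity_pos hP0, Polynomial.IsRoot.def, hP]
    simp
  rw [C_0, sub_zero] at hq hndvd
  have hcop : IsCoprime (X ^ a : K[X]) q := by
    apply IsCoprime.pow_left
    exact (Polynomial.irreducible_X.coprime_iff_not_dvd).2 hndvd
  obtain ⟨u, v, huv⟩ := hcop
  have hPz : aeval z P = 0 := by
    rw [hP, map_mul, minpoly.aeval, mul_zero]
  have hXq : aeval z (X ^ a * q) = 0 := by rw [← hq]; exact hPz
  set g := aeval z (u * X ^ a) with hg
  have hgA : g ∈ A := by
    have := Polynomial.aeval_mem_adjoin_singleton (R := K) (x := z) (p := u * X ^ a)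
    have h2 : Algebra.adjoin K {z} ≤ A := Algebra.adjoin_le (by simpa using hzA)
    exact h2 this
  obtain ⟨b, hb⟩ : ∃ b, a = b + 1 := ⟨a - 1, by omega⟩
  have hg1 : g = aeval z (u * X ^ b) * z := by
    rw [hg, hb, pow_succ, ← mul_assoc, map_mul, aeval_X]
  have hg2 : g = z * aeval z (u * X ^ b) := by
    rw [hg, hb, pow_succ, ← mul_assoc, mul_comm, map_mul, aeval_X]
  refine ⟨g, hgA, ?_, ?_, ?_, ?_, ?_⟩
  · have h1 : (u * X ^ a) * (u * X ^ a) = u * X ^ a - u * v * (X ^ a * q) := by
      have : u * X ^ a = 1 - v * q := by rw [← huv]; ring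
      calc (u * X ^ a) * (u * X ^ a) = (u * X ^ a) * (1 - v * q) := by rw [this]
        _ = _ := by ring
    have h2 := congrArg (aeval z) h1
    rw [map_mul, map_sub, map_mul (aeval z) (u * v), hXq, mul_zero, sub_zero] at h2
    exact h2
  · rw [hg2, ← mul_assoc, hez]
  · rw [hg1, mul_assoc, hze]
  · intro h0
    apply hnil
    refine ⟨a, ?_⟩
    have h1 : (X ^ a : K[X]) = X ^ a * (u * X ^ a) + v * (X ^ a * q) := by
      calc (X ^ a : K[X]) = X ^ a * (u * X ^ a + v * q) := by rw [huv, mul_one]
        _ = _ := by ring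
    have h2 := congrArg (aeval z) h1
    rw [map_add, map_mul, map_mul (aeval z) v, hXq, mul_zero, add_zero, ← hg, h0, mul_zero,
      map_pow, aeval_X] at h2
    exact h2
  · intro h0
    apply hw
    rw [← hew, ← h0, hg1, Module.End.mul_apply, hzw, map_zero]

lemma rank_lt [Module.Finite K V] (e g : Module.End K V) (hg : g * g = g)
    (heg : e * g = g) (hge : g * e = g) (hne : g ≠ e) :
    Module.finrank K (LinearMap.range g) < Module.finrank K (LinearMap.range e) := by
  apply Submodule.finrank_lt_finrank_of_lt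
  refine lt_of_le_of_ne ?_ ?_
  · rintro x ⟨y, rfl⟩
    exact ⟨g y, by rw [← Module.End.mul_apply, heg]⟩
  · intro hEq
    apply hne
    ext x
    have hx : e x ∈ LinearMap.range g := by rw [hEq]; exact ⟨x, rfl⟩
    obtain ⟨y, hy⟩ := hx
    rw [← hy]
    have h1 : g (e x) = g x := by rw [← Module.End.mul_apply, hge]
    rw [← h1, ← hy, ← Module.End.mul_apply, hg]

lemma decomp [IsAlgClosed K] [Module.Finite K V] (A : Subalgebra K (Module.End K V)) :
    ∀ (n : ℕ) (e : Module.End K V), e ∈ A → e * e = e →
      Module.finrank K (LinearMap.range e) ≤ n →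
      ∃ (ι : Type) (_ : Fintype ι) (f : ι → Module.End K V), (∀ i, f i ∈ A) ∧ (∀ i, f i ≠ 0) ∧
        (∀ i, f i * f i = f i) ∧ (∀ i j, i ≠ j → f i * f j = 0) ∧ ∑ i, f i = e ∧
        (∀ i, e * f i = f i) ∧ (∀ i, f i * e = f i) ∧
        ∀ i, ∀ x ∈ A, ∃ c : K, IsNilpotent (f i * x * f i - c • f i) := by
  intro n
  induction n with
  | zero =>
    intro e _ _ hr
    have he0 : e = 0 := by
      have : LinearMap.range e = ⊥ := by
        apply Submodule.finrank_eq_zero.1
        omega
      exact LinearMap.range_eq_bot.1 this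
    exact ⟨Empty, inferInstance, fun i => i.elim, fun i => i.elim, fun i => i.elim,
      fun i => i.elim, fun i => i.elim, by simp [he0], fun i => i.elim, fun i => i.elim,
      fun i => i.elim⟩
  | succ n ih =>
    intro e heA he hr
    by_cases he0 : e = 0
    · exact ⟨Empty, inferInstance, fun i => i.elim, fun i => i.elim, fun i => i.elim,
        fun i => i.elim, fun i => i.elim, by simp [he0], fun i => i.elim, fun i => i.elim,
        fun i => i.elim⟩
    by_cases hprim : ∀ x ∈ A, ∃ c : K, IsNilpotent (e * x * e - c • e)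
    · exact ⟨Unit, inferInstance, fun _ => e, fun _ => heA, fun _ => he0, fun _ => he,
        fun i j hij => absurd (Subsingleton.elim i j) hij, by simp, fun _ => he, fun _ => he,
        fun _ => hprim⟩
    · push Not at hprim
      obtain ⟨x, hxA, hx⟩ := hprim
      -- an eigenvector in the range of e
      obtain ⟨w, c, hw, hew, hzw⟩ : ∃ (w : V) (c : K), w ≠ 0 ∧ e w = w ∧
          (e * x * e - c • e) w = 0 := by
        have hne : Nontrivial (LinearMap.range e) := by
          rw [Submodule.nontrivial_iff_ne_bot]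
          intro h
          exact he0 (LinearMap.range_eq_bot.1 h)
        have hmap : ∀ y ∈ LinearMap.range e, (e * x * e) y ∈ LinearMap.range e := by
          intro y _
          rw [mul_assoc, Module.End.mul_apply]
          exact ⟨_, rfl⟩
        obtain ⟨c, hc⟩ := Module.End.exists_eigenvalue ((e * x * e).restrict hmap)
        obtain ⟨w, hw⟩ := hc.exists_hasEigenvector
        have hw1 := hw.apply_eq_smul
        have hw2 := congrArg Subtype.val hw1
        rw [LinearMap.restrict_coe_apply, Submodule.coe_smul] at hw2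
        have hew : e (w : V) = w := by
          obtain ⟨y, hy⟩ := w.2
          rw [← hy, ← Module.End.mul_apply, he]
        refine ⟨w, c, ?_, hew, ?_⟩
        · intro h
          exact hw.2 (Subtype.ext h)
        · rw [LinearMap.sub_apply, hw2, LinearMap.smul_apply, hew, sub_self]
      obtain ⟨g, hgA, hg, heg, hge, hg0, hgne⟩ := fitting A e (e * x * e - c • e) he
        (A.sub_mem (A.mul_mem (A.mul_mem heA hxA) heA) (A.smul_mem heA c))
        (by rw [mul_sub, ← mul_assoc, ← mul_assoc, he, mul_smul_comm, he])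
        (by rw [sub_mul, mul_assoc, he, smul_mul_assoc, he]) w hw hew hzw (hx c)
      have hr1 := rank_lt e g hg heg hge hgne
      have hh : (e - g) * (e - g) = e - g := by
        rw [mul_sub, sub_mul, sub_mul, he, hg, heg, hge]; abel
      have hr2 := rank_lt e (e - g) hh (by rw [mul_sub, he, heg]) (by rw [sub_mul, he, hge])
        (by intro h; apply hg0; exact sub_eq_self.1 h)
      obtain ⟨ι₁, F₁, f₁, a1, a2, a3, a4, a5, a6, a7, a8⟩ := ih g hgA hg (by omega)
      obtain ⟨ι₂, F₂, f₂, b1, b2, b3, b4, b5, b6, b7, b8⟩ := ih (e - g) (A.sub_mem heA hgA) hh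
        (by omega)
      have hgh : g * (e - g) = 0 := by rw [mul_sub, hge, hg, sub_self]
      have hhg : (e - g) * g = 0 := by rw [sub_mul, heg, hg, sub_self]
      refine ⟨ι₁ ⊕ ι₂, inferInstance, Sum.elim f₁ f₂, ?_, ?_, ?_, ?_, ?_, ?_, ?_, ?_⟩
      · rintro (i | i)
        · exact a1 i
        · exact b1 i
      · rintro (i | i)
        · exact a2 i
        · exact b2 i
      · rintro (i | i)
        · exact a3 i
        · exact b3 i
      · rintro (i | i) (j | j) hij
        · exact a4 i j (fun h => hij (by rw [h]))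
        · change f₁ i * f₂ j = 0
          rw [← a7 i, ← b6 j, mul_assoc, ← mul_assoc g, hgh, zero_mul, mul_zero]
        · change f₂ i * f₁ j = 0
          rw [← b7 i, ← a6 j, mul_assoc, ← mul_assoc (e - g), hhg, zero_mul, mul_zero]
        · exact b4 i j (fun h => hij (by rw [h]))
      · rw [Fintype.sum_sum_type]
        simp only [Sum.elim_inl, Sum.elim_inr]
        rw [a5, b5]; abel
      · rintro (i | i)
        · change e * f₁ i = f₁ i
          rw [← a6 i, ← mul_assoc, heg]
        · change e * f₂ i = f₂ i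
          rw [← b6 i, ← mul_assoc, mul_sub, he, heg]
      · rintro (i | i)
        · change f₁ i * e = f₁ i
          rw [← a7 i, mul_assoc, hge]
        · change f₂ i * e = f₂ i
          rw [← b7 i, mul_assoc, sub_mul, he, hge]
      · rintro (i | i)
        · exact a8 i
        · exact b8 i

theorem t_ALG : Pool.Agent.J4H47.GC.S_ALG.{v} := by
  intro K _ _ V _ _ _ A
  obtain ⟨ι, hι, f, h1, h2, h3, h4, h5, _, _, h8⟩ := decomp A _ 1 A.one_mem (one_mul 1) le_rfl
  let E := Fintype.equivFin ι
  refine ⟨Fintype.card ι, fun i => f (E.symm i), fun i => h1 _, fun i => h2 _, fun i => h3 _,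
    fun i j hij => h4 _ _ (fun h => hij (E.symm.injective h)), ?_, fun i => h8 _⟩
  rw [← h5]
  exact Equiv.sum_comp E.symm f

end Pool.Agent.J4H79.GC
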