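import Mathlib
import Pool.Agent.J4H47.GC.Def

/-!
# An involution on a primitive idempotent; traces on its corner
-/

set_option autoImplicit false

open Finset

universe v

namespace Pool.Agent.J4H79.GC

/-- The involution is a sign on the corner of a primitive idempotent. -/
theorem t_PAR : Pool.Agent.J4H47.GC.S_PAR.{v} := by
  intro K _ _ V _ _ _ f p hf hf0 hp hpf hc
  obtain ⟨c, m, hm⟩ := hc
  have hfpf : f * p * f = p * f := by rw [← hpf, mul_assoc, hf]
  rw [hfpf] at hm
  -- s = p f satisfies s^2 = f, s f = f s = s
  set s := p * f with hs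
  have hss : s * s = f := by
    rw [hs]
    calc p * f * (p * f) = p * (f * p) * f := by simp only [mul_assoc]
      _ = p * (p * f) * f := by rw [← hpf]
      _ = (p * p) * (f * f) := by simp only [mul_assoc]
      _ = f := by rw [hp, hf, one_mul]
  have hsf : s * f = s := by rw [hs, mul_assoc, hf]
  have hfs : f * s = s := by rw [hs, ← mul_assoc, ← hpf, mul_assoc, hf]
  -- a nonzero idempotent h with h n = t h, n nilpotent, has t = 0
  have key : ∀ (h : Module.End K V) (t : K), h ≠ 0 → h * h = h →
      h * (s - c • f) = t • h → t = 0 := by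
    intro h t hh0 hh ht
    have h1 : ∀ k : ℕ, h * (s - c • f) ^ k = t ^ k • h := by
      intro k
      induction k with
      | zero => simp
      | succ k ih =>
        rw [pow_succ, ← mul_assoc, ih, smul_mul_assoc, ht, smul_smul, pow_succ]
    have h2 := h1 m
    rw [hm, mul_zero] at h2
    have h3 : t ^ m = 0 := by
      by_contra h4
      rcases smul_eq_zero.1 h2.symm with h5 | h5
      · exact h4 h5
      · exact hh0 h5
    have hm0 : m ≠ 0 := by
      rintro rfl
      rw [pow_zero] at h3
      exact one_ne_zero h3
    exact (pow_eq_zero_iff hm0).1 h3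
  have h2 : (2 : K) ≠ 0 := two_ne_zero
  by_cases ha : f + s = 0
  · right
    exact eq_neg_of_add_eq_zero_right ha
  by_cases hb : f - s = 0
  · left
    exact (sub_eq_zero.1 hb).symm
  exfalso
  have hc1 : (1 - c) = 0 := by
    apply key ((2 : K)⁻¹ • (f + s)) (1 - c)
    · exact smul_ne_zero (inv_ne_zero h2) ha
    · rw [smul_mul_smul_comm, add_mul, mul_add, mul_add, hf, hfs, hsf, hss]
      have : f + s + (s + f) = (2 : K) • (f + s) := by rw [two_smul]; abel
      rw [this, smul_smul]
      congr 1
      field_simp
    · rw [smul_mul_assoc, smul_comm, mul_sub, add_mul, hfs, hss, mul_smul_comm, add_mul, hf, hsf,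
        sub_smul, one_smul]
      congr 1
      rw [add_comm s f]
  have hc2 : (-1 - c) = 0 := by
    apply key ((2 : K)⁻¹ • (f - s)) (-1 - c)
    · exact smul_ne_zero (inv_ne_zero h2) hb
    · rw [smul_mul_smul_comm, sub_mul, mul_sub, mul_sub, hf, hfs, hsf, hss]
      have : f - s - (s - f) = (2 : K) • (f - s) := by rw [two_smul]; abel
      rw [this, smul_smul]
      congr 1
      field_simp
    · rw [smul_mul_assoc, smul_comm, mul_sub, sub_mul, hfs, hss, mul_smul_comm, sub_mul, hf, hsf,
        sub_smul, neg_smul, one_smul]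
      congr 1
      abel
  apply h2
  have : (2 : K) = (1 - c) - (-1 - c) := by ring
  rw [this, hc1, hc2, sub_zero]

/-- Traces on the corner. -/
theorem t_LOC : Pool.Agent.J4H47.GC.S_LOC.{v} := by
  intro K _ _ V _ _ _ f z c hf hnil D hDf hDz
  -- trace (D * (f z f - c f)) = 0 because D commutes with the nilpotent
  have hcomm : Commute D (f * z * f - c • f) := by
    change D * (f * z * f - c • f) = (f * z * f - c • f) * D
    rw [mul_sub, sub_mul, mul_smul_comm, smul_mul_assoc, hDf]
    congr 1
    calc D * (f * z * f) = (D * f) * z * f := by simp only [mul_assoc]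
      _ = f * (D * z) * f := by rw [hDf]; simp only [mul_assoc]
      _ = f * z * (D * f) := by rw [hDz]; simp only [mul_assoc]
      _ = f * z * f * D := by rw [hDf]; simp only [mul_assoc]
  have hn : IsNilpotent (D * (f * z * f - c • f)) := hcomm.isNilpotent_mul_left hnil
  have h0 : LinearMap.trace K V (D * (f * z * f - c • f)) = 0 :=
    (LinearMap.isNilpotent_trace_of_isNilpotent hn).eq_zero
  rw [mul_sub, map_sub, sub_eq_zero, mul_smul_comm, map_smul, smul_eq_mul] at h0
  rw [← h0]
  -- trace (D f z f) = trace (f D f z) = trace (D f z)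
  have h1 : D * (f * z * f) = (D * f * z) * f := by simp only [mul_assoc]
  have h2 : f * (D * f * z) = D * f * z := by
    rw [← mul_assoc, ← mul_assoc, ← hDf, mul_assoc D f f, hf]
  rw [h1, LinearMap.trace_mul_comm K (D * f * z) f, h2]

end Pool.Agent.J4H79.GC
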