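import Pool.Agent.J4H79.GC.Gel2
import Pool.Agent.J4H27.GC.Defs

/-!
# Project GC (helper27), job GEL (helper79): Gelfond's inequality
-/

set_option autoImplicit false
set_option linter.all false

open MvPolynomial Height Height.AdmissibleAbsValues

namespace Pool.Agent.J4H79.GC

open Pool.Agent.J4H27.GC

lemma card_supp_le {n : ℕ} {K : Type} [Field K] (Q : MvPolynomial (Fin n) K) :
    Q.support.card ≤ 2 ^ (∑ i, Q.degreeOf i) := by
  have h1 : Q.support.card ≤ (Fintype.piFinset (fun i => Finset.range (Q.degreeOf i + 1))).card := by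
    apply Finset.card_le_card_of_injOn (fun m : Fin n →₀ ℕ => (m : Fin n → ℕ))
    · intro m hm
      rw [Finset.mem_coe, Fintype.mem_piFinset]
      intro i
      rw [Finset.mem_range]
      exact Nat.lt_succ_of_le (monomial_le_degreeOf i hm)
    · intro a _ b _ hab
      exact DFunLike.coe_injective hab
  refine h1.trans ?_
  rw [Fintype.card_piFinset, ← Finset.prod_pow_eq_pow_sum]
  apply Finset.prod_le_prod'
  intro i _
  rw [Finset.card_range]
  exact Nat.lt_two_pow_self

lemma eval_le {n : ℕ} (Q : MvPolynomial (Fin n) ℂ) (z : Fin n → ℂ) (hz : ∀ i, ‖z i‖ = 1) :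
    ‖eval z Q‖ ≤ 2 ^ (∑ i, Q.degreeOf i) * mx nC Q := by
  rw [eval_eq]
  have h1 : ∀ d ∈ Q.support, ‖coeff d Q * ∏ i ∈ d.support, z i ^ d i‖ ≤ mx nC Q := by
    intro d _
    rw [norm_mul, norm_prod]
    have h2 : ∏ i ∈ d.support, ‖z i ^ d i‖ = 1 := by
      apply Finset.prod_eq_one
      intro i _
      rw [norm_pow, hz, one_pow]
    rw [h2, mul_one, ← nC_apply]
    exact le_mx _ _ _
  refine (norm_sum_le_of_le _ h1).trans ?_
  rw [Finset.sum_const, nsmul_eq_mul]
  refine mul_le_mul_of_nonneg_right ?_ (mx_nonneg _ _)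
  exact_mod_cast card_supp_le Q

lemma sum_deg {n : ℕ} {K : Type} [Field K] (s : Multiset (MvPolynomial (Fin n) K))
    (h : ∀ P ∈ s, P ≠ 0) : s.prod ≠ 0 ∧
    (s.map (fun P => ∑ i, P.degreeOf i)).sum = ∑ i, s.prod.degreeOf i := by
  induction s using Multiset.induction_on with
  | empty => simp
  | cons a s ih =>
    obtain ⟨h1, h2⟩ := ih fun P hP => h P (Multiset.mem_cons_of_mem hP)
    have ha := h a (Multiset.mem_cons_self a s)
    refine ⟨by rw [Multiset.prod_cons]; exact mul_ne_zero ha h1, ?_⟩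
    rw [Multiset.map_cons, Multiset.sum_cons, Multiset.prod_cons, h2, ← Finset.sum_add_distrib]
    apply Finset.sum_congr rfl
    intro i _
    rw [degreeOf_mul_eq ha h1]

lemma norm_prod_eval {n : ℕ} (s : Multiset (MvPolynomial (Fin n) ℂ)) (z : Fin n → ℂ) :
    ‖eval z s.prod‖ = (s.map (fun a => ‖eval z a‖)).prod := by
  induction s using Multiset.induction_on with
  | empty => simp
  | cons a s ih => simp [ih]

theorem arch_C {n : ℕ} (s : Multiset (MvPolynomial (Fin n) ℂ)) (h : ∀ P ∈ s, P ≠ 0) :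
    (s.map (mx nC)).prod ≤ 4 ^ (∑ i, s.prod.degreeOf i) * mx nC s.prod := by
  obtain ⟨z, hz, h1⟩ := several n s id h
  obtain ⟨h2, h3⟩ := sum_deg s h
  simp only [id] at h1
  rw [h3] at h1
  have h4 : (s.map (fun a => ‖eval z a‖)).prod = ‖eval z s.prod‖ := by
    exact (norm_prod_eval s z).symm
  rw [h4] at h1
  refine h1.trans ?_
  have h5 := eval_le s.prod z hz
  calc (2 : ℝ) ^ (∑ i, s.prod.degreeOf i) * ‖eval z s.prod‖
      ≤ 2 ^ (∑ i, s.prod.degreeOf i) * (2 ^ (∑ i, s.prod.degreeOf i) * mx nC s.prod) :=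
        mul_le_mul_of_nonneg_left h5 (by positivity)
    _ = 4 ^ (∑ i, s.prod.degreeOf i) * mx nC s.prod := by
        rw [← mul_assoc, ← mul_pow]
        norm_num

section

variable {K : Type} [Field K]

lemma mx_map {n : ℕ} {v : AbsoluteValue K ℝ} {φ : K →+* ℂ} (hφ : ∀ x, v x = ‖φ x‖)
    (P : MvPolynomial (Fin n) K) : mx nC (map φ P) = mx v P := by
  apply le_antisymm
  · refine mx_le (mx_nonneg _ _) fun s => ?_
    rw [coeff_map, nC_apply, ← hφ]
    exact le_mx _ _ _
  · refine mx_le (mx_nonneg _ _) fun s => ?_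
    rw [hφ, ← nC_apply, ← coeff_map]
    exact le_mx _ _ _

lemma deg_map {n : ℕ} (φ : K →+* ℂ) (P : MvPolynomial (Fin n) K) (i : Fin n) :
    (map φ P).degreeOf i = P.degreeOf i := by
  rw [degreeOf_eq_sup, degreeOf_eq_sup, support_map_of_injective _ φ.injective]

theorem arch_K {n : ℕ} {v : AbsoluteValue K ℝ} {φ : K →+* ℂ} (hφ : ∀ x, v x = ‖φ x‖)
    (s : Multiset (MvPolynomial (Fin n) K)) (h : ∀ P ∈ s, P ≠ 0) :
    (s.map (mx v)).prod ≤ 4 ^ (∑ i, s.prod.degreeOf i) * mx v s.prod := by
  have h1 := arch_C (s.map (map φ)) (by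
    intro Q hQ
    rw [Multiset.mem_map] at hQ
    obtain ⟨P, hP, rfl⟩ := hQ
    intro h0
    exact h P hP ((map_eq_zero_iff _ (map_injective φ φ.injective)).mp h0))
  rw [Multiset.map_map, ← map_multiset_prod, mx_map hφ] at h1
  have h2 : (s.map (mx nC ∘ map φ)) = s.map (mx v) := by
    apply Multiset.map_congr rfl
    intro P _
    exact mx_map hφ P
  rw [h2] at h1
  simpa only [deg_map] using h1

end

section number_field

variable {K : Type} [Field K] [NumberField K] {n : ℕ}

lemma fin_supp {P : MvPolynomial (Fin n) K} (hP : P ≠ 0) :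
    (fun v : nonarchAbsVal (K := K) => mx v.val P).HasFiniteMulSupport := by
  have h1 : (⋃ t ∈ P.support, Function.mulSupport
      (fun v : nonarchAbsVal (K := K) => v.val (P.coeff t))).Finite :=
    Set.Finite.biUnion P.support.finite_toSet fun t ht =>
      hasFiniteMulSupport (mem_support_iff.mp ht)
  refine h1.subset ?_
  intro v hv
  simp only [Set.mem_iUnion]
  by_contra hcon
  push Not at hcon
  apply hv
  show mx v.val P = 1
  obtain ⟨t, ht, he⟩ := exists_mx (v := v.val) hP
  rw [he]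
  have := hcon t ht
  rwa [Function.mem_mulSupport, not_not] at this

/-- archimedean part of the height -/
noncomputable def hA (P : MvPolynomial (Fin n) K) : ℝ :=
  ((archAbsVal (K := K)).map (fun v => mx v P)).prod

/-- nonarchimedean part of the height -/
noncomputable def hN (P : MvPolynomial (Fin n) K) : ℝ :=
  ∏ᶠ v : nonarchAbsVal (K := K), mx v.val P

lemma hp_eq {P : MvPolynomial (Fin n) K} (hP : P ≠ 0) : hp P = Real.log (hA P * hN P) := by
  unfold hp
  rw [logHeight_eq_log_mulHeight, Height.mulHeight_eq]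
  · rfl
  · intro h
    obtain ⟨t, ht⟩ := MvPolynomial.support_nonempty.mpr hP
    have := congrFun h ⟨t, ht⟩
    exact mem_support_iff.mp ht this

lemma hA_pos {P : MvPolynomial (Fin n) K} (hP : P ≠ 0) : 0 < hA P :=
  prod_map_pos' _ _ fun v _ => mx_pos hP

lemma hN_pos {P : MvPolynomial (Fin n) K} (hP : P ≠ 0) : 0 < hN P :=
  finprod_induction (fun x : ℝ => 0 < x) one_pos (fun _ _ => mul_pos) fun v => mx_pos hP

lemma hN_one : hN (1 : MvPolynomial (Fin n) K) = 1 := by
  unfold hN
  apply finprod_eq_one_of_forall_eq_one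
  intro v
  have h1 := mx_mul v.val (isNonarchimedean v.val v.2) (1 : MvPolynomial (Fin n) K) 1
  rw [mul_one] at h1
  have h2 := mx_pos (v := v.val) (one_ne_zero (α := MvPolynomial (Fin n) K))
  have h3 : mx v.val (1 : MvPolynomial (Fin n) K) * (mx v.val (1 : MvPolynomial (Fin n) K) - 1) = 0 := by
    linarith
  rcases mul_eq_zero.mp h3 with h4 | h4
  · exact absurd h4 h2.ne'
  · linarith

lemma hN_mul {P Q : MvPolynomial (Fin n) K} (hP : P ≠ 0) (hQ : Q ≠ 0) :
    hN (P * Q) = hN P * hN Q := by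
  unfold hN
  rw [← finprod_mul_distrib (fin_supp hP) (fin_supp hQ)]
  apply finprod_congr
  intro v
  exact mx_mul v.val (isNonarchimedean v.val v.2) P Q

lemma hN_prod (s : Multiset (MvPolynomial (Fin n) K)) (h : ∀ P ∈ s, P ≠ 0) :
    (s.map hN).prod = hN s.prod := by
  induction s using Multiset.induction_on with
  | empty => simp [hN_one]
  | cons a s ih =>
    have h1 : ∀ P ∈ s, P ≠ 0 := fun P hP => h P (Multiset.mem_cons_of_mem hP)
    rw [Multiset.map_cons, Multiset.prod_cons, Multiset.prod_cons, ih h1,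
      hN_mul (h a (Multiset.mem_cons_self a s)) (sum_deg s h1).1]

lemma hA_prod (s : Multiset (MvPolynomial (Fin n) K)) (h : ∀ P ∈ s, P ≠ 0) :
    (s.map hA).prod ≤
      (4 ^ (∑ i, s.prod.degreeOf i)) ^ (archAbsVal (K := K)).card * hA s.prod := by
  unfold hA
  rw [Multiset.prod_map_prod_map]
  have h1 : ((archAbsVal (K := K)).map (fun v => (s.map (fun P => mx v P)).prod)).prod ≤
      ((archAbsVal (K := K)).map
        (fun v => 4 ^ (∑ i, s.prod.degreeOf i) * mx v s.prod)).prod := by
    apply multiset_prod_le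
    intro v hv
    refine ⟨Multiset.prod_map_nonneg fun P _ => mx_nonneg _ _, ?_⟩
    have hv2 : NumberField.IsInfinitePlace v := NumberField.mem_multisetInfinitePlace.mp hv
    obtain ⟨φ, hφ⟩ := hv2
    apply arch_K (φ := φ) _ s h
    intro x
    rw [← hφ]
    rfl
  rw [Multiset.prod_map_mul, Multiset.map_const', Multiset.prod_replicate] at h1
  exact h1

end number_field

theorem t_GEL : S_GEL := by
  intro K _ _ n
  refine ⟨(archAbsVal (K := K)).card * Real.log 4, by positivity, ?_⟩
  intro s hs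
  obtain ⟨h0, -⟩ := sum_deg s hs
  have h1 : (s.map hp).sum = Real.log ((s.map (fun P => hA P * hN P)).prod) := by
    rw [Real.log_multiset_prod, Multiset.map_map]
    · congr 1
      apply Multiset.map_congr rfl
      intro P hP
      exact hp_eq (hs P hP)
    · intro x hx
      rw [Multiset.mem_map] at hx
      obtain ⟨P, hP, rfl⟩ := hx
      exact (mul_pos (hA_pos (hs P hP)) (hN_pos (hs P hP))).ne'
  rw [h1, hp_eq h0, Multiset.prod_map_mul, hN_prod s hs]
  have h2 := hA_prod s hs
  have hp1 := hA_pos h0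
  have hp2 := hN_pos h0
  have h3 : (s.map hA).prod * hN s.prod ≤
      (4 ^ (∑ i, s.prod.degreeOf i)) ^ (archAbsVal (K := K)).card * (hA s.prod * hN s.prod) := by
    rw [← mul_assoc]
    exact mul_le_mul_of_nonneg_right h2 hp2.le
  have h4 : 0 < (s.map hA).prod * hN s.prod :=
    mul_pos (prod_map_pos' s _ fun P hP => hA_pos (hs P hP)) hp2
  refine (Real.log_le_log h4 h3).trans (le_of_eq ?_)
  rw [Real.log_mul (by positivity) (by positivity), Real.log_pow, Real.log_pow]
  push_cast
  ring

end Pool.Agent.J4H79.GC
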