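import Mathlib

/-!
# Project GC (helper27), job GEL (helper79): sup norms of the coefficients
-/

set_option autoImplicit false
set_option linter.all false

open MvPolynomial

namespace Pool.Agent.J4H79.GC

/-- maximum of the absolute values of the coefficients -/
noncomputable def mx {σ K : Type} [Field K] (v : AbsoluteValue K ℝ) (P : MvPolynomial σ K) : ℝ :=
  ⨆ s : P.support, v (P.coeff s)

section basic

variable {σ K : Type} [Field K] (v : AbsoluteValue K ℝ) (P : MvPolynomial σ K)

lemma mx_nonneg : 0 ≤ mx v P := Real.iSup_nonneg fun _ => v.nonneg _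

lemma le_mx (s : σ →₀ ℕ) : v (P.coeff s) ≤ mx v P := by
  by_cases h : s ∈ P.support
  · exact le_ciSup (f := fun s : P.support => v (P.coeff s)) (Set.finite_range _).bddAbove ⟨s, h⟩
  · rw [notMem_support_iff.mp h, map_zero]
    exact mx_nonneg v P

variable {v P}

lemma mx_le {B : ℝ} (hB : 0 ≤ B) (h : ∀ s, v (P.coeff s) ≤ B) : mx v P ≤ B :=
  Real.iSup_le (fun s => h s) hB

lemma mx_zero : mx v (0 : MvPolynomial σ K) = 0 :=
  le_antisymm (mx_le le_rfl (fun s => by simp)) (mx_nonneg _ _)

lemma exists_mx (h : P ≠ 0) : ∃ s ∈ P.support, mx v P = v (P.coeff s) := by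
  obtain ⟨s0, hs0⟩ := MvPolynomial.support_nonempty.mpr h
  have : Nonempty P.support := ⟨⟨s0, hs0⟩⟩
  obtain ⟨s, hs⟩ := exists_eq_ciSup_of_finite (f := fun s : P.support => v (P.coeff s))
  exact ⟨s, s.2, hs.symm⟩

lemma mx_pos (h : P ≠ 0) : 0 < mx v P := by
  obtain ⟨s, hs, he⟩ := exists_mx (v := v) h
  rw [he]
  exact v.pos (mem_support_iff.mp hs)

end basic

/-! ### nonarchimedean absolute values -/

section nonarch

variable {K : Type} [Field K] (v : AbsoluteValue K ℝ)

lemma mx_succ {n : ℕ} (w : AbsoluteValue (MvPolynomial (Fin n) K) ℝ)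
    (hw : ∀ P, w P = mx v P) (P : MvPolynomial (Fin (n + 1)) K) :
    (finSuccEquiv K n P).gaussNorm w 1 = mx v P := by
  apply le_antisymm
  · obtain ⟨i, hi⟩ := (finSuccEquiv K n P).exists_eq_gaussNorm w 1
    rw [hi, one_pow, mul_one, hw]
    refine mx_le (mx_nonneg _ _) fun s => ?_
    rw [finSuccEquiv_coeff_coeff]
    exact le_mx _ _ _
  · refine mx_le (Polynomial.gaussNorm_nonneg _ _ zero_le_one) fun s => ?_
    have h1 := (finSuccEquiv K n P).le_gaussNorm w (zero_le_one (α := ℝ)) (s 0)
    rw [one_pow, mul_one, hw] at h1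
    refine le_trans ?_ h1
    have h2 := le_mx v ((finSuccEquiv K n P).coeff (s 0)) s.tail
    rwa [finSuccEquiv_coeff_coeff, Finsupp.cons_tail] at h2

lemma exists_abs (hv : IsNonarchimedean v) (n : ℕ) :
    ∃ w : AbsoluteValue (MvPolynomial (Fin n) K) ℝ, IsNonarchimedean w ∧ ∀ P, w P = mx v P := by
  induction n with
  | zero =>
    have key : ∀ P : MvPolynomial (Fin 0) K, mx v P = v (P.coeff 0) := by
      intro P
      refine le_antisymm (mx_le (v.nonneg _) fun s => ?_) (le_mx v P 0)
      rw [Subsingleton.elim s 0]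
    have hinj : Function.Injective (constantCoeff : MvPolynomial (Fin 0) K →+* K) := by
      intro P Q h
      rw [eq_C_of_isEmpty P, eq_C_of_isEmpty Q]
      exact congrArg C h
    refine ⟨v.comp (f := constantCoeff) hinj, ?_, ?_⟩
    · intro P Q
      show v (constantCoeff (P + Q)) ≤ _
      rw [map_add]
      exact hv _ _
    · intro P
      rw [key]
      rfl
  | succ n ih =>
    obtain ⟨w, hw1, hw2⟩ := ih
    have h := Polynomial.gaussNorm_isAbsoluteValue (v := w) hw1 (c := 1) one_pos
    haveI := h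
    refine ⟨(IsAbsoluteValue.toAbsoluteValue (Polynomial.gaussNorm w 1)).comp
      (f := (finSuccEquiv K n).toRingEquiv.toRingHom) (finSuccEquiv K n).injective, ?_, ?_⟩
    · intro P Q
      show Polynomial.gaussNorm w 1 (finSuccEquiv K n (P + Q)) ≤ _
      rw [map_add]
      exact Polynomial.isNonarchimedean_gaussNorm w hw1 zero_le_one _ _
    · intro P
      exact mx_succ v w hw2 P

lemma mx_mul (hv : IsNonarchimedean v) {n : ℕ} (P Q : MvPolynomial (Fin n) K) :
    mx v (P * Q) = mx v P * mx v Q := by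
  obtain ⟨w, -, hw⟩ := exists_abs v hv n
  rw [← hw, ← hw, ← hw, map_mul]

end nonarch

end Pool.Agent.J4H79.GC
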