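import Pool.Agent.J4H79.GC.Gel1

/-!
# Project GC (helper27), job GEL (helper79): the archimedean estimate
-/

set_option autoImplicit false
set_option linter.all false

open MvPolynomial

namespace Pool.Agent.J4H79.GC

/-- the norm of `ℂ` as an absolute value -/
noncomputable def nC : AbsoluteValue ℂ ℝ := NormedField.toAbsoluteValue ℂ

lemma nC_apply (z : ℂ) : nC z = ‖z‖ := rfl

/-! ### one variable -/

lemma mahler_le {q : Polynomial ℂ} {m : ℝ} (hm : 0 < m)
    (h : ∀ z : ℂ, ‖z‖ = 1 → ‖q.eval z‖ ≤ m) : q.mahlerMeasure ≤ m := by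
  obtain ⟨p, hp⟩ : ∃ p : Polynomial ℂ, p = Polynomial.C ((m⁻¹ : ℝ) : ℂ) * q := ⟨_, rfl⟩
  have h1 : p.mahlerMeasure ≤ 1 := by
    by_cases hp0 : p = 0
    · rw [hp0, Polynomial.mahlerMeasure_zero]
      exact zero_le_one
    · have h2 : p.logMahlerMeasure ≤ 0 := by
        rw [Polynomial.logMahlerMeasure_def]
        apply Real.circleAverage_mono_on_of_le_circle
        · exact p.intervalIntegrable_mahlerMeasure
        · intro x hx
          have hx1 : ‖x‖ = 1 := by simpa using hx
          apply Real.log_nonpos (norm_nonneg _)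
          rw [hp, Polynomial.eval_mul, Polynomial.eval_C, norm_mul, Complex.norm_real,
            Real.norm_of_nonneg (by positivity)]
          have := h x hx1
          rw [inv_mul_le_iff₀ hm, mul_one]
          exact this
      rw [Polynomial.mahlerMeasure, if_pos hp0]
      exact Real.exp_le_one_iff.mpr h2
  rw [hp, Polynomial.mahlerMeasure_mul, Polynomial.mahlerMeasure_const, Complex.norm_real,
    Real.norm_of_nonneg (by positivity), inv_mul_le_iff₀ hm, mul_one] at h1
  exact h1

lemma exists_circle (q : Polynomial ℂ) : ∃ ζ : ℂ, ‖ζ‖ = 1 ∧ q.mahlerMeasure ≤ ‖q.eval ζ‖ := by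
  obtain ⟨ζ, hζ, hmax⟩ := (isCompact_sphere (0 : ℂ) 1).exists_isMaxOn ⟨1, by simp⟩
    (f := fun z => ‖q.eval z‖) (by fun_prop)
  have hζ1 : ‖ζ‖ = 1 := by simpa using hζ
  refine ⟨ζ, hζ1, ?_⟩
  apply le_of_forall_pos_le_add
  intro t ht
  apply mahler_le (by positivity)
  intro z hz
  have h1 : ‖q.eval z‖ ≤ ‖q.eval ζ‖ := hmax (show z ∈ Metric.sphere (0 : ℂ) 1 by simpa using hz)
  linarith

/-- bounds for products over multisets -/
lemma multiset_prod_le {α : Type} (s : Multiset α) (f g : α → ℝ) (h : ∀ a ∈ s, 0 ≤ f a ∧ f a ≤ g a) :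
    (s.map f).prod ≤ (s.map g).prod :=
  Multiset.prod_map_le_prod_map₀ f g (fun a ha => (h a ha).1) (fun a ha => (h a ha).2)

lemma prod_map_pos' {α : Type} (s : Multiset α) (f : α → ℝ) (h : ∀ a ∈ s, 0 < f a) :
    0 < (s.map f).prod := by
  induction s using Multiset.induction_on with
  | empty => simp
  | cons a s ih =>
    rw [Multiset.map_cons, Multiset.prod_cons]
    exact mul_pos (h a (Multiset.mem_cons_self a s)) (ih fun b hb => h b (Multiset.mem_cons_of_mem hb))

lemma prod_two_pow {α : Type} (s : Multiset α) (d : α → ℕ) :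
    (s.map (fun a => (2 : ℝ) ^ d a)).prod = 2 ^ (s.map d).sum := by
  induction s using Multiset.induction_on with
  | empty => simp
  | cons a s ih => simp [ih, pow_add]

lemma norm_eval_prod {α : Type} (s : Multiset α) (q : α → Polynomial ℂ) (ζ : ℂ) :
    ‖((s.map q).prod).eval ζ‖ = (s.map (fun a => ‖(q a).eval ζ‖)).prod := by
  induction s using Multiset.induction_on with
  | empty => simp
  | cons a s ih => simp [ih]

lemma one_var {α : Type} (s : Multiset α) (q : α → Polynomial ℂ) (d : α → ℕ)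
    (hd : ∀ a ∈ s, (q a).natDegree ≤ d a) :
    ∃ ζ : ℂ, ‖ζ‖ = 1 ∧ (s.map (fun a => (q a).supNorm)).prod ≤
      2 ^ (s.map d).sum * (s.map (fun a => ‖(q a).eval ζ‖)).prod := by
  obtain ⟨ζ, hζ, h⟩ := exists_circle ((s.map q).prod)
  refine ⟨ζ, hζ, ?_⟩
  rw [norm_eval_prod, Polynomial.prod_mahlerMeasure_eq_mahlerMeasure_prod, Multiset.map_map] at h
  have h1 : (s.map (fun a => (q a).supNorm)).prod ≤
      (s.map (fun a => 2 ^ d a * (q a).mahlerMeasure)).prod := by
    apply multiset_prod_le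
    intro a ha
    refine ⟨Polynomial.supNorm_nonneg _, ?_⟩
    obtain ⟨i, hi⟩ := (q a).exists_eq_supNorm
    rw [hi]
    refine (Polynomial.norm_coeff_le_choose_mul_mahlerMeasure i (q a)).trans ?_
    refine mul_le_mul_of_nonneg_right ?_ (Polynomial.mahlerMeasure_nonneg _)
    have h2 : (q a).natDegree.choose i ≤ 2 ^ d a :=
      (Nat.choose_le_two_pow _ _).trans (Nat.pow_le_pow_right (by norm_num) (hd a ha))
    exact_mod_cast h2
  rw [Multiset.prod_map_mul, prod_two_pow] at h1
  refine h1.trans (mul_le_mul_of_nonneg_left h (by positivity))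

/-! ### several variables -/

/-- the univariate polynomial of the coefficients of `X ^ m` in `F`, `F` a polynomial in the
variable `0` over the polynomials in the others -/
noncomputable def qp {n : ℕ} (m : Fin n →₀ ℕ) (F : Polynomial (MvPolynomial (Fin n) ℂ)) :
    Polynomial ℂ :=
  ∑ i ∈ Finset.range (F.natDegree + 1), Polynomial.monomial i ((F.coeff i).coeff m)

lemma qp_coeff {n : ℕ} (m : Fin n →₀ ℕ) (F : Polynomial (MvPolynomial (Fin n) ℂ)) (j : ℕ) :
    (qp m F).coeff j = (F.coeff j).coeff m := by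
  unfold qp
  rw [Polynomial.finsetSum_coeff]
  simp only [Polynomial.coeff_monomial]
  rw [Finset.sum_ite_eq']
  split_ifs with h
  · rfl
  · rw [Polynomial.coeff_eq_zero_of_natDegree_lt (by simpa using h)]
    simp

lemma qp_natDegree {n : ℕ} (m : Fin n →₀ ℕ) (F : Polynomial (MvPolynomial (Fin n) ℂ)) :
    (qp m F).natDegree ≤ F.natDegree := by
  rw [Polynomial.natDegree_le_iff_coeff_eq_zero]
  intro j hj
  rw [qp_coeff, Polynomial.coeff_eq_zero_of_natDegree_lt hj]
  simp

lemma qp_eval {n : ℕ} (m : Fin n →₀ ℕ) (F : Polynomial (MvPolynomial (Fin n) ℂ)) (ζ : ℂ) :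
    (qp m F).eval ζ = (F.eval (C ζ)).coeff m := by
  rw [Polynomial.eval_eq_sum_range' (Nat.lt_succ_of_le (qp_natDegree m F)),
    Polynomial.eval_eq_sum_range, coeff_sum]
  apply Finset.sum_congr rfl
  intro i _
  rw [qp_coeff, ← C_pow, mul_comm _ (C _), coeff_C_mul, mul_comm]

lemma deg_eval {n : ℕ} (P : MvPolynomial (Fin (n + 1)) ℂ) (ζ : ℂ) (i : Fin n) :
    ((finSuccEquiv ℂ n P).eval (C ζ)).degreeOf i ≤ P.degreeOf i.succ := by
  rw [degreeOf_le_iff]
  intro m hm
  rw [mem_support_iff, Polynomial.eval_eq_sum_range, coeff_sum] at hm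
  obtain ⟨k, -, hk⟩ := Finset.exists_ne_zero_of_sum_ne_zero hm
  rw [← C_pow, mul_comm _ (C _), coeff_C_mul, finSuccEquiv_coeff_coeff] at hk
  have h1 : Finsupp.cons k m ∈ P.support := by
    rw [mem_support_iff]
    exact right_ne_zero_of_mul hk
  have h2 := monomial_le_degreeOf i.succ h1
  rwa [Finsupp.cons_succ] at h2

theorem several {α : Type} : ∀ (n : ℕ) (s : Multiset α) (P : α → MvPolynomial (Fin n) ℂ),
    (∀ a ∈ s, P a ≠ 0) →
    ∃ z : Fin n → ℂ, (∀ i, ‖z i‖ = 1) ∧ (s.map (fun a => mx nC (P a))).prod ≤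
      2 ^ (s.map (fun a => ∑ i, (P a).degreeOf i)).sum *
        (s.map (fun a => ‖eval z (P a)‖)).prod := by
  intro n
  induction n with
  | zero =>
    intro s P hP
    refine ⟨fun _ => 0, fun i => i.elim0, ?_⟩
    simp only [Finset.univ_eq_empty, Finset.sum_empty]
    have h0 : (s.map (fun _ : α => 0)).sum = 0 := by simp
    rw [h0, pow_zero, one_mul]
    apply multiset_prod_le
    intro a ha
    refine ⟨mx_nonneg _ _, mx_le (norm_nonneg _) fun t => ?_⟩
    rw [nC_apply, Subsingleton.elim t 0, eq_C_of_isEmpty (P a)]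
    simp
  | succ n ih =>
    intro s P hP
    choose! t ht1 ht2 using fun a (ha : a ∈ s) => exists_mx (v := nC) (hP a ha)
    obtain ⟨ζ, hζ, h1⟩ := one_var s (fun a => qp (t a).tail (finSuccEquiv ℂ n (P a)))
      (fun a => (P a).degreeOf 0) (fun a ha => by
        rw [← natDegree_finSuccEquiv]; exact qp_natDegree _ _)
    obtain ⟨Q, hQ⟩ : ∃ Q : α → MvPolynomial (Fin n) ℂ, Q = fun a => (finSuccEquiv ℂ n (P a)).eval (C ζ) :=
      ⟨_, rfl⟩
    have h2 : (s.map (fun a => mx nC (P a))).prod ≤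
        (s.map (fun a => (qp (t a).tail (finSuccEquiv ℂ n (P a))).supNorm)).prod := by
      apply multiset_prod_le
      intro a ha
      refine ⟨mx_nonneg _ _, ?_⟩
      rw [ht2 a ha, nC_apply]
      have h3 := (qp (t a).tail (finSuccEquiv ℂ n (P a))).le_supNorm (t a 0)
      rwa [qp_coeff, finSuccEquiv_coeff_coeff, Finsupp.cons_tail] at h3
    have hpos : 0 < (s.map (fun a => mx nC (P a))).prod := by
      exact prod_map_pos' s _ fun a ha => mx_pos (hP a ha)
    have h4 : ∀ a ∈ s, (qp (t a).tail (finSuccEquiv ℂ n (P a))).eval ζ ≠ 0 := by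
      intro a ha h5
      have h6 : (s.map (fun a => ‖(qp (t a).tail (finSuccEquiv ℂ n (P a))).eval ζ‖)).prod = 0 := by
        apply Multiset.prod_eq_zero
        rw [Multiset.mem_map]
        exact ⟨a, ha, by rw [h5, norm_zero]⟩
      rw [h6, mul_zero] at h1
      linarith
    have hQ0 : ∀ a ∈ s, Q a ≠ 0 := by
      intro a ha h5
      apply h4 a ha
      rw [qp_eval]
      rw [hQ] at h5
      simp only at h5
      rw [h5, coeff_zero]
    obtain ⟨z, hz, h7⟩ := ih s Q hQ0
    refine ⟨Fin.cons ζ z, ?_, ?_⟩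
    · intro i
      refine Fin.cases ?_ (fun j => ?_) i
      · simpa using hζ
      · simpa using hz j
    have h8 : (s.map (fun a => ‖(qp (t a).tail (finSuccEquiv ℂ n (P a))).eval ζ‖)).prod ≤
        (s.map (fun a => mx nC (Q a))).prod := by
      apply multiset_prod_le
      intro a ha
      refine ⟨norm_nonneg _, ?_⟩
      rw [qp_eval, ← nC_apply, hQ]
      exact le_mx _ _ _
    have h9 : (s.map (fun a => ‖eval z (Q a)‖)) =
        (s.map (fun a => ‖eval (Fin.cons ζ z : Fin (n + 1) → ℂ) (P a)‖)) := by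
      apply Multiset.map_congr rfl
      intro a _
      rw [eval_eq_eval_mv_eval', hQ]
      simp only
      rw [Polynomial.eval_map, ← Polynomial.eval₂_at_apply, eval_C]
    rw [h9] at h7
    have h10 : (s.map (fun a => ∑ i, (P a).degreeOf i)).sum =
        (s.map (fun a => (P a).degreeOf 0)).sum +
          (s.map (fun a => ∑ i : Fin n, (P a).degreeOf i.succ)).sum := by
      rw [← Multiset.sum_map_add]
      apply congrArg
      apply Multiset.map_congr rfl
      intro a _
      rw [Fin.sum_univ_succ]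
    have h11 : (s.map (fun a => ∑ i, (Q a).degreeOf i)).sum ≤
        (s.map (fun a => ∑ i : Fin n, (P a).degreeOf i.succ)).sum := by
      apply Multiset.sum_map_le_sum_map
      intro a _
      apply Finset.sum_le_sum
      intro i _
      rw [hQ]
      exact deg_eval _ _ _
    have h12 : (0 : ℝ) ≤ (s.map (fun a => ‖eval (Fin.cons ζ z : Fin (n + 1) → ℂ) (P a)‖)).prod :=
      Multiset.prod_map_nonneg fun a _ => norm_nonneg _
    rw [h10, pow_add, mul_assoc]
    refine h2.trans (h1.trans (mul_le_mul_of_nonneg_left (h8.trans (h7.trans ?_)) (by positivity)))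
    exact mul_le_mul_of_nonneg_right (pow_le_pow_right₀ (by norm_num) h11) h12

end Pool.Agent.J4H79.GC
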