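import Pool.Agent.J4H79.GC.Gel

/-!
# Project GC (helper27), job RES (helper79): the sum of the absolute values of the coefficients,
determinants
-/

set_option autoImplicit false
set_option linter.all false

open MvPolynomial

namespace Pool.Agent.J4H79.GC

/-- sum of the absolute values of the coefficients -/
noncomputable def l1 {σ K : Type} [Field K] (v : AbsoluteValue K ℝ) (P : MvPolynomial σ K) : ℝ :=
  ∑ s ∈ P.support, v (P.coeff s)

section

variable {σ K : Type} [Field K] {v : AbsoluteValue K ℝ}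

lemma l1_eq {P : MvPolynomial σ K} {T : Finset (σ →₀ ℕ)} (h : P.support ⊆ T) :
    l1 v P = ∑ s ∈ T, v (P.coeff s) := by
  unfold l1
  apply Finset.sum_subset h
  intro s _ hs
  rw [notMem_support_iff.mp hs, map_zero]

lemma l1_nonneg (P : MvPolynomial σ K) : 0 ≤ l1 v P := Finset.sum_nonneg fun _ _ => v.nonneg _

lemma mx_le_l1 (P : MvPolynomial σ K) : mx v P ≤ l1 v P := by
  refine mx_le (l1_nonneg P) fun s => ?_
  by_cases hs : s ∈ P.support
  · exact Finset.single_le_sum (f := fun s => v (P.coeff s)) (fun _ _ => v.nonneg _) hs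
  · rw [notMem_support_iff.mp hs, map_zero]
    exact l1_nonneg P

lemma l1_zero : l1 v (0 : MvPolynomial σ K) = 0 := by simp [l1]

lemma l1_add (P Q : MvPolynomial σ K) : l1 v (P + Q) ≤ l1 v P + l1 v Q := by
  classical
  rw [l1_eq (T := P.support ∪ Q.support) support_add, l1_eq (v := v) (P := P)
    (T := P.support ∪ Q.support) Finset.subset_union_left, l1_eq (v := v) (P := Q)
    (T := P.support ∪ Q.support) Finset.subset_union_right, ← Finset.sum_add_distrib]
  apply Finset.sum_le_sum
  intro s _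
  rw [coeff_add]
  exact v.add_le _ _

lemma l1_neg (P : MvPolynomial σ K) : l1 v (-P) = l1 v P := by
  unfold l1
  rw [support_neg]
  apply Finset.sum_congr rfl
  intro s _
  rw [coeff_neg, v.map_neg]

lemma l1_sum {ι : Type} (T : Finset ι) (f : ι → MvPolynomial σ K) :
    l1 v (∑ i ∈ T, f i) ≤ ∑ i ∈ T, l1 v (f i) := by
  classical
  induction T using Finset.induction_on with
  | empty => simp [l1_zero]
  | insert a T ha ih =>
    rw [Finset.sum_insert ha, Finset.sum_insert ha]
    exact (l1_add _ _).trans (by linarith)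

lemma l1_monomial (s : σ →₀ ℕ) (a : K) : l1 v (monomial s a) = v a := by
  classical
  rw [l1_eq (T := {s}) support_monomial_subset, Finset.sum_singleton, coeff_monomial, if_pos rfl]

lemma l1_mul (P Q : MvPolynomial σ K) : l1 v (P * Q) ≤ l1 v P * l1 v Q := by
  classical
  have h1 : P * Q = ∑ s ∈ P.support, ∑ t ∈ Q.support,
      monomial (s + t) (P.coeff s * Q.coeff t) := by
    conv_lhs => rw [P.as_sum, Q.as_sum]
    rw [Finset.sum_mul_sum]
    simp only [monomial_mul]
  rw [h1]
  refine (l1_sum _ _).trans ?_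
  unfold l1
  rw [Finset.sum_mul_sum]
  apply Finset.sum_le_sum
  intro s _
  refine (l1_sum _ _).trans ?_
  apply Finset.sum_le_sum
  intro t _
  rw [l1_monomial, map_mul]

lemma l1_one : l1 v (1 : MvPolynomial σ K) = 1 := by
  have := l1_monomial (v := v) (0 : σ →₀ ℕ) (1 : K)
  rw [v.map_one] at this
  exact this

lemma l1_prod {ι : Type} (T : Finset ι) (f : ι → MvPolynomial σ K) :
    l1 v (∏ i ∈ T, f i) ≤ ∏ i ∈ T, l1 v (f i) := by
  classical
  induction T using Finset.induction_on with
  | empty => simp [l1_one]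
  | insert a T ha ih =>
    rw [Finset.prod_insert ha, Finset.prod_insert ha]
    exact (l1_mul _ _).trans (mul_le_mul_of_nonneg_left ih (l1_nonneg _))

/-- `l1` of a determinant, with bounds for the columns -/
lemma l1_det {N : ℕ} (M : Matrix (Fin N) (Fin N) (MvPolynomial σ K)) (b : Fin N → ℝ)
    (h : ∀ i j, l1 v (M i j) ≤ b j) : l1 v M.det ≤ (N : ℝ) ^ N * ∏ j, b j := by
  classical
  have hb : ∀ j, 0 ≤ b j := fun j => (l1_nonneg (M j j)).trans (h j j)
  rw [Matrix.det_apply]
  refine (l1_sum _ _).trans ?_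
  have h1 : ∀ σ' ∈ (Finset.univ : Finset (Equiv.Perm (Fin N))),
      l1 v (Equiv.Perm.sign σ' • ∏ i, M (σ' i) i) ≤ ∏ j, b j := by
    intro s _
    have h2 : l1 v (Equiv.Perm.sign s • ∏ i, M (s i) i) = l1 v (∏ i, M (s i) i) := by
      rcases Int.units_eq_one_or (Equiv.Perm.sign s) with h3 | h3
      · rw [h3, one_smul]
      · rw [h3, Units.neg_smul, one_smul, l1_neg]
    rw [h2]
    refine (l1_prod _ _).trans ?_
    exact Finset.prod_le_prod (fun _ _ => l1_nonneg _) fun i _ => h _ _
  refine (Finset.sum_le_sum h1).trans ?_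
  rw [Finset.sum_const, nsmul_eq_mul, Finset.card_univ, Fintype.card_perm, Fintype.card_fin]
  refine mul_le_mul_of_nonneg_right ?_ (Finset.prod_nonneg fun j _ => hb j)
  exact_mod_cast Nat.factorial_le_pow N

lemma na_sum {R : Type} [CommRing R] (w : AbsoluteValue R ℝ) (hw : IsNonarchimedean w) {ι : Type}
    (T : Finset ι) (f : ι → R) {B : ℝ} (hB : 0 ≤ B) (h : ∀ i ∈ T, w (f i) ≤ B) :
    w (∑ i ∈ T, f i) ≤ B := by
  classical
  induction T using Finset.induction_on with
  | empty => simpa using hB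
  | insert a T ha ih =>
    rw [Finset.sum_insert ha]
    refine (hw _ _).trans (max_le (h a (Finset.mem_insert_self _ _)) (ih fun i hi => h i ?_))
    exact Finset.mem_insert_of_mem hi

lemma na_det {R : Type} [CommRing R] [Nontrivial R] (w : AbsoluteValue R ℝ)
    (hw : IsNonarchimedean w) {N : ℕ} (M : Matrix (Fin N) (Fin N) R) (b : Fin N → ℝ)
    (h : ∀ i j, w (M i j) ≤ b j) : w M.det ≤ ∏ j, b j := by
  classical
  have hb : ∀ j, 0 ≤ b j := fun j => (w.nonneg (M j j)).trans (h j j)
  rw [Matrix.det_apply]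
  apply na_sum w hw _ _ (Finset.prod_nonneg fun j _ => hb j)
  intro s _
  have h2 : w (Equiv.Perm.sign s • ∏ i, M (s i) i) = w (∏ i, M (s i) i) := by
    rcases Int.units_eq_one_or (Equiv.Perm.sign s) with h3 | h3
    · rw [h3, one_smul]
    · rw [h3, Units.neg_smul, one_smul, w.map_neg]
  rw [h2, map_prod]
  exact Finset.prod_le_prod (fun _ _ => w.nonneg _) fun i _ => h _ _

lemma deg_det {N : ℕ} (M : Matrix (Fin N) (Fin N) (MvPolynomial σ K)) (k : σ) (D : ℕ)
    (h : ∀ i j, (M i j).degreeOf k ≤ D) : M.det.degreeOf k ≤ N * D := by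
  classical
  rw [Matrix.det_apply]
  refine (degreeOf_sum_le _ _ _).trans (Finset.sup_le fun s _ => ?_)
  have h2 : (Equiv.Perm.sign s • ∏ i, M (s i) i).degreeOf k = (∏ i, M (s i) i).degreeOf k := by
    rcases Int.units_eq_one_or (Equiv.Perm.sign s) with h3 | h3
    · rw [h3, one_smul]
    · rw [h3, Units.neg_smul, one_smul, degreeOf_neg]
  rw [h2]
  refine (degreeOf_prod_le _ _ _).trans ?_
  refine (Finset.sum_le_sum fun i _ => h (s i) i).trans ?_
  rw [Finset.sum_const, smul_eq_mul, Finset.card_univ, Fintype.card_fin]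

/-! ### weighted order -/

/-- all the monomials of `f` have weight at least `t` -/
def Og [Fintype σ] (w : σ → ℕ) (t : ℕ) (f : MvPolynomial σ K) : Prop :=
  ∀ s ∈ f.support, t ≤ ∑ i, w i * s i

variable [Fintype σ] {w : σ → ℕ}

lemma Og.neg {t : ℕ} {f : MvPolynomial σ K} (h : Og w t f) : Og w t (-f) := by
  intro s hs
  rw [support_neg] at hs
  exact h s hs

lemma Og.sum {ι : Type} {t : ℕ} (T : Finset ι) (f : ι → MvPolynomial σ K)
    (h : ∀ i ∈ T, Og w t (f i)) : Og w t (∑ i ∈ T, f i) := by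
  classical
  intro s hs
  rw [mem_support_iff, coeff_sum] at hs
  obtain ⟨i, hi, hne⟩ := Finset.exists_ne_zero_of_sum_ne_zero hs
  exact h i hi s (mem_support_iff.mpr hne)

lemma Og.mul {t u : ℕ} {f g : MvPolynomial σ K} (hf : Og w t f) (hg : Og w u g) :
    Og w (t + u) (f * g) := by
  classical
  intro s hs
  have h1 := support_mul f g hs
  rw [Finset.mem_add] at h1
  obtain ⟨a, ha, b, hb, rfl⟩ := h1
  have h2 : ∑ i, w i * (a + b) i = ∑ i, w i * a i + ∑ i, w i * b i := by
    rw [← Finset.sum_add_distrib]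
    apply Finset.sum_congr rfl
    intro i _
    rw [Finsupp.add_apply, mul_add]
  rw [h2]
  exact add_le_add (hf a ha) (hg b hb)

lemma Og.prod {ι : Type} (T : Finset ι) (t : ι → ℕ) (f : ι → MvPolynomial σ K)
    (h : ∀ i ∈ T, Og w (t i) (f i)) : Og w (∑ i ∈ T, t i) (∏ i ∈ T, f i) := by
  classical
  induction T using Finset.induction_on with
  | empty => intro s _; simp
  | insert a T ha ih =>
    rw [Finset.sum_insert ha, Finset.prod_insert ha]
    exact (h a (Finset.mem_insert_self _ _)).mul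
      (ih fun i hi => h i (Finset.mem_insert_of_mem hi))

lemma Og.det {N : ℕ} (M : Matrix (Fin N) (Fin N) (MvPolynomial σ K)) (t : Fin N → ℕ)
    (h : ∀ i j, Og w (t i) (M i j)) : Og w (∑ i, t i) M.det := by
  classical
  rw [Matrix.det_apply]
  apply Og.sum
  intro s _
  have h1 : Og w (∑ i, t (s i)) (∏ i, M (s i) i) := Og.prod _ _ _ fun i _ => h _ _
  rw [Equiv.sum_comp s t] at h1
  rcases Int.units_eq_one_or (Equiv.Perm.sign s) with h3 | h3
  · rw [h3, one_smul]; exact h1
  · rw [h3, Units.neg_smul, one_smul]; exact h1.neg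

end

end Pool.Agent.J4H79.GC
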